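import Mathlib
import Pool.Agent.L7h32.CT.IdxF

/-!
# Primes `p_j` with `j` in every residue class modulo `m` and `p_j + h_1, ..., p_j + h_k` almost primes `P_2`

The question asks for primes `p_{kn}`, with index a multiple of `n`, for which `p_{kn} + 2` is prime. Here
`p_{kn} + h` (and even `p_{kn} + h_1, ..., p_{kn} + h_k` at the same time) has at most two prime factors, for almost
all shifts: for all `k`, `m ≥ 1`, `ε > 0`, `η > 0` there is `K₀` such that for ALL finite sets `A_0, ..., A_k` of
integers with at least `K₀` elements and all large `x`, for all but `ε |A_0| ... |A_k|` of the admissible vectors `a`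
of `A_0 × ... × A_k` the following holds for EVERY residue class `r` modulo `m`: there are at least
`x ^ (1 - η)` numbers `n ≤ x` such that `n + a_0` is a prime `p_j` whose index `j` is `≡ r` modulo `m`, and all of
`n + a_1 = p_j + (a_1 - a_0)`, ..., `n + a_k = p_j + (a_k - a_0)` have at most two prime factors, each of them at
least `x ^ (1/7)`. The case `r = 0` concerns the indices `j` which are multiples of `m`; with `k = 1` and intervals
of even numbers as `A_0` and `A_1`: for almost all even `h` there are many multiples `j` of `m` with `p_j + h` an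
almost prime `P_2`.

For the shift `2` it is known from the starting file `MultiplesOfEveryN` that `p_{kn} + 2` has infinitely
often at most `R(n)` prime factors, where `R(n)` is not specified; the starting file `PatternsWithIndices` has
primes in place of the almost primes for the proportion `(k + 1) (5/18)^k` of the vectors.

Proof. Let the classes of residues which occur for a vector be its colour. By Erdős's box lemma one finds a box all
of whose vectors have the same colour. In it one takes `T` blocks of the first set, which lie together without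
elements of the other sets between them, and blocks of the other sets. The sieve theorem of `MP_8923e7_nt`
(`Pool.Agent.L7h32.CT.thmC`: more than `5/18` of the blocks contain primes, and all blocks contain almost primes
`P_2`), with all other numbers between the first `T` blocks made composite by congruences, gives `m` consecutive
primes in the first blocks and almost primes in the others. The indices of the `m` primes represent all
residue classes, so the colour is the set of all residue classes.
-/

set_option autoImplicit false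

namespace Pool.Agent.Results.MP_be93de_nt.ChenPrimesWithIndices

open Finset Filter

/-- The `j`-th prime: `p 1 = 2`, `p 2 = 3`, `p 3 = 5`, and so on. -/
noncomputable def p (j : ℕ) : ℕ := Nat.nth Nat.Prime (j - 1)

/-- `m` exceeds `1` and has at most two prime factors, counted with multiplicity, all at least `y` -/
def P2 (y : ℝ) (m : ℤ) : Prop :=
  1 < m ∧ m.natAbs.primeFactorsList.length ≤ 2 ∧ ∀ q ∈ m.natAbs.primeFactors, y ≤ (q : ℝ)

/-- for every prime `l` some `n` makes all of `n + a_0, ..., n + a_k` prime to `l` -/
def Admissible {k : ℕ} (a : Fin (k + 1) → ℤ) : Prop :=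
  ∀ l : ℕ, l.Prime → ∃ n : ℤ, ∀ i, ¬ (l : ℤ) ∣ n + a i

/-- the number of the `1 ≤ n ≤ x` such that `n + a_0` is the prime `p_j` for some `j ≡ r` modulo `m` and all of
`n + a_1, ..., n + a_k` have at most two prime factors, all of them at least `x ^ (1/7)` -/
noncomputable def count (m r : ℕ) {k : ℕ} (a : Fin (k + 1) → ℤ) (x : ℕ) : ℕ :=
  {n : ℕ | (1 ≤ n ∧ n ≤ x) ∧ (∃ j : ℕ, 1 ≤ j ∧ j ≡ r [MOD m] ∧ (n : ℤ) + a 0 = p j) ∧
    ∀ i : Fin k, P2 ((x : ℝ) ^ (1 / 7 : ℝ)) (n + a i.succ)}.ncard

open Classical in
/-- **Chen's theorem for almost all vectors of shifts, with the index of the prime in every residue class.** -/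
theorem result (k m : ℕ) (hm : 1 ≤ m) (ε η : ℝ) (hε : 0 < ε) (hη : 0 < η) : ∃ K₀ : ℕ,
    ∀ A : Fin (k + 1) → Finset ℤ, (∀ i, K₀ ≤ (A i).card) → ∃ x₀ : ℕ, ∀ x : ℕ, x₀ ≤ x →
    (((Fintype.piFinset A).filter (fun a : Fin (k + 1) → ℤ =>
      Admissible a ∧ ∃ r : ℕ, (count m r a x : ℝ) < (x : ℝ) ^ (1 - η))).card : ℝ) ≤
      ε * ∏ i, ((A i).card : ℝ) := by
  obtain ⟨K₀, hK₀⟩ := Pool.Agent.L7h32.CT.mainI k m hm ε η hε hη
  refine ⟨K₀, fun A hA => ?_⟩
  obtain ⟨x₀, hx₀⟩ := hK₀ A hA
  refine ⟨x₀, fun x hx => le_trans ?_ (hx₀ x hx)⟩
  rw [Nat.cast_le]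
  apply Finset.card_le_card
  intro a ha
  rw [Finset.mem_filter] at ha ⊢
  obtain ⟨ha1, ha2, r, hr⟩ := ha
  refine ⟨ha1, ha2, r, lt_of_le_of_lt ?_ hr⟩
  rw [Nat.cast_le]
  unfold count Pool.Agent.L7h32.CT.cntI
  rw [← Set.ncard_coe_finset]
  apply Set.ncard_le_ncard
  · intro n hn
    rw [Finset.mem_coe, Finset.mem_filter, Finset.mem_Icc] at hn
    obtain ⟨hn1, hn2, hn3, hn4⟩ := hn
    refine ⟨hn1, ⟨Nat.primeCounting ((n : ℤ) + a 0).toNat, ?_, hn3, ?_⟩, hn4⟩
    · have h1 : Nat.primeCounting 2 ≤ Nat.primeCounting ((n : ℤ) + a 0).toNat :=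
        Nat.monotone_primeCounting hn2.two_le
      have h2 : 0 < Nat.primeCounting 2 := by
        rw [Nat.pos_iff_ne_zero, Ne, Nat.primeCounting_eq_zero_iff]
        norm_num
      omega
    · have h1 : Nat.primeCounting ((n : ℤ) + a 0).toNat - 1 =
          Nat.count Nat.Prime ((n : ℤ) + a 0).toNat := by
        have h2 : Nat.primeCounting ((n : ℤ) + a 0).toNat =
            Nat.count Nat.Prime (((n : ℤ) + a 0).toNat + 1) := rfl
        rw [h2, Nat.count_succ, if_pos hn2]
        rfl
      unfold p
      rw [h1, Nat.nth_count hn2]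
      have := hn2.two_le
      omega
  · apply (Finset.finite_toSet (Finset.Icc 1 x)).subset
    rintro n ⟨hn, -, -⟩
    rw [Finset.mem_coe, Finset.mem_Icc]
    exact hn

end Pool.Agent.Results.MP_be93de_nt.ChenPrimesWithIndices
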