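import Pool.Agent.L7h36.IX.AvgV
import Pool.Agent.H387R2.U2

/-!
# Prime tuples with the right order of magnitude and every vector of indices modulo `m`

Let `p_i` be the `i`-th prime. The question asks for multiples `j m` of `m` for which `p_(jm) + 2` is prime. For all
`k, m ≥ 1` there are `Λ, c > 0` such that in every set `A` of at least `η log x` positive integers up to
`Λ log x` (`η > 0` as small as we like) a proportion at least `c` of the `(k + 1)`-element subsets
`T = {t_0 < … < t_k}`, measured by the singular series `𝔖 T`, has the following property: for EVERY vector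
`(r_0, …, r_k)` of residue classes modulo `m` there are at least `δ 𝔖 T x / (log x) ^ (k + 1)` integers `n ≤ x`
such that all the numbers `n + t_j` are primes, and the index of `n + t_j` is `≡ r_j` modulo `m` for all `j`. This is
the order of magnitude predicted for each vector. For `k = 1`, `r_0 = 0`: for many `d = b - a`, `a, b ∈ A`, the right
number of the multiples `j m` of `m` are such that `p_(jm) + d` is a prime with an index in any prescribed class.

Proof. As for `RightOrderEveryClass`: few large sets of shifts (in one class modulo the product `W` of the primes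
up to a large function of `x`) contain no set `F` of `(k + 1) m` elements for which the `n + f` are CONSECUTIVE primes
for the right number of `n` (starting library, coloured Maynard-Tao theorem for consecutive primes). Such an `F` is
coloured with a popular class of the index of its first prime. By Ramsey's theorem a positive proportion of the
sets `W` of `2 (k + 1) m` elements is monochromatic. `T` consists of the elements of `W` with the numbers
`m, 2m, …, (k + 1) m`; by leaving out elements of `W` between them every vector of the residues modulo `m` of the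
positions of the elements of `T` in a subset `F` of `(k + 1) m` elements can be obtained. For different `F ⊇ T` with
the same positions the `n` are different since the primes of `n + F` are consecutive.
-/

set_option autoImplicit false

open Finset

namespace Pool.Agent.Results.MP_be93de_nt.EveryVectorOfClasses

/-- all the numbers `n + t`, `t ∈ T`, are prime, and the index of the `j`-th of them (`j = 0, 1, …`) is `≡ r j`
modulo `m` (the index of a prime `l` is the number of the primes `≤ l`) -/
def PrimesWithIndices (m : ℕ) (r : ℕ → ℕ) (n : ℕ) (T : Finset ℕ) : Prop :=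
  ∀ t ∈ T, (n + t).Prime ∧ Nat.primeCounting (n + t) ≡ r ((T.filter (fun u => u < t)).card) [MOD m]

open Classical in
/-- the number of `n ≤ x` for which all the `n + t`, `t ∈ T`, are prime with indices in the classes `r j` -/
noncomputable def count (m : ℕ) (r : ℕ → ℕ) (x : ℕ) (T : Finset ℕ) : ℕ :=
  ((Icc 1 x).filter (fun n => PrimesWithIndices m r n T)).card

/-- the number of residue classes modulo `p` occupied by `T` -/
def nu (T : Finset ℕ) (p : ℕ) : ℕ := (T.image (· % p)).card

/-- the factor at `p` of the singular series -/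
noncomputable def loc (T : Finset ℕ) (p : ℕ) : ℝ :=
  (1 - (nu T p : ℝ) / p) / (1 - 1 / (p : ℝ)) ^ T.card

/-- the singular series of `T` -/
noncomputable def 𝔖 (T : Finset ℕ) : ℝ := ∏' p : Nat.Primes, loc T p

open Pool.Agent.H387R2.Uni Pool.Agent.L7h36.IX

theorem CT_eq (T : Finset ℕ) : CT T = 𝔖 T := rfl

theorem cnTV_le {m X x : ℕ} {r : ℕ → ℕ} (hx : 2 * X ≤ x) (_ : 1 ≤ X) (T : Finset ℕ) :
    cnTV m r X T ≤ count m r x T := by
  classical
  unfold cnTV count
  apply card_le_card
  intro n hn
  rw [mem_filter, mem_Ico] at hn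
  rw [mem_filter, mem_Icc]
  exact ⟨⟨by omega, by omega⟩, hn.2⟩

open Classical in
/-- **Prime tuples in dense sets of shifts, with every vector of indices modulo `m`.** For all
`k, m ≥ 1` there are `Λ, c > 0` such that for every `η > 0` there are `δ > 0` and `x₀` such that for all `x ≥ x₀`
and every set `A` of positive integers `≤ Λ log x` with at least `η log x` elements: the `(k + 1)`-element subsets `T`
of `A` such that for EVERY vector `r 0, …, r k` there are at least `δ 𝔖 T x / (log x) ^ (k + 1)` integers `n ≤ x` for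
which all the `n + t`, `t ∈ T`, are prime, the `j`-th with index `≡ r j` modulo `m`, carry at least the proportion `c`
of the sum of `𝔖 T` over all `(k + 1)`-element subsets `T` of `A`. -/
theorem result (k m : ℕ) (hk : 1 ≤ k) (hm : 1 ≤ m) : ∃ Λ c : ℝ, 0 < Λ ∧ 0 < c ∧ ∀ η : ℝ, 0 < η →
    ∃ δ : ℝ, 0 < δ ∧ ∃ x₀ : ℕ, ∀ x : ℕ, x₀ ≤ x → ∀ A : Finset ℕ,
      (∀ a ∈ A, 1 ≤ a ∧ (a : ℝ) ≤ Λ * Real.log x) → η * Real.log x ≤ A.card →
      c * ∑ T ∈ A.powersetCard (k + 1), 𝔖 T ≤
        ∑ T ∈ (A.powersetCard (k + 1)).filter (fun T => ∀ r : ℕ → ℕ,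
          δ * 𝔖 T * (x / Real.log x ^ (k + 1)) ≤ count m r x T), 𝔖 T := by
  obtain ⟨Λ, κ, hΛ, -, hκ, hF⟩ := finalV k m hk hm
  refine ⟨Λ / 2, κ, by positivity, hκ, fun η hη => ?_⟩
  obtain ⟨δ, hδ, X₀, hX₀⟩ := hF η hη
  refine ⟨δ / 3, by positivity, 2 * X₀ + 20, fun x hx A hA hcard => ?_⟩
  obtain ⟨X, hX⟩ : ∃ X : ℕ, X = x / 2 := ⟨_, rfl⟩
  have hX1 : 2 * X ≤ x := by omega
  have hX6 : 6 ≤ X := by omega
  have hXX₀ : X₀ ≤ X := by omega
  have hXr : (6 : ℝ) ≤ X := by exact_mod_cast hX6
  have hxr : (X : ℝ) ≤ x := by exact_mod_cast (by omega : X ≤ x)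
  have hx3 : (x : ℝ) ≤ 3 * X := by exact_mod_cast (by omega : x ≤ 3 * X)
  have hL : 0 < Real.log X := Real.log_pos (by linarith)
  have hLx : Real.log X ≤ Real.log x := Real.log_le_log (by linarith) hxr
  have hL2 : Real.log x ≤ 2 * Real.log X := by
    have h1 : (x : ℝ) ≤ (X : ℝ) ^ 2 := by nlinarith
    calc Real.log x ≤ Real.log ((X : ℝ) ^ 2) := Real.log_le_log (by linarith) h1
      _ = 2 * Real.log X := by rw [Real.log_pow]; norm_num
  have hA' : ∀ a ∈ A, 1 ≤ a ∧ (a : ℝ) ≤ Λ * Real.log X := by
    intro a ha
    obtain ⟨h1, h2⟩ := hA a ha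
    refine ⟨h1, h2.trans ?_⟩
    calc Λ / 2 * Real.log x ≤ Λ / 2 * (2 * Real.log X) := by gcongr
      _ = Λ * Real.log X := by ring
  have hcard' : η * Real.log X ≤ A.card := le_trans (by gcongr) hcard
  have key := hX₀ X hXX₀ A hA' hcard'
  refine key.trans ?_
  refine sum_le_sum_of_subset_of_nonneg (f := CT) ?_ ?_
  · intro T hT
    rw [mem_filter] at hT ⊢
    refine ⟨hT.1, fun r => ?_⟩
    have h2' : (cnTV m r X T : ℝ) ≤ count m r x T := by exact_mod_cast cnTV_le hX1 (by omega) T
    refine le_trans ?_ ((hT.2 r).trans h2')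
    rw [CT_eq]
    have h3 : 0 ≤ 𝔖 T := CT_nonneg T
    have h4 : (x : ℝ) / Real.log x ^ (k + 1) ≤ 3 * X / Real.log X ^ (k + 1) := by
      apply div_le_div₀ (by positivity) hx3 (by positivity)
      exact pow_le_pow_left₀ hL.le hLx _
    calc δ / 3 * 𝔖 T * (x / Real.log x ^ (k + 1)) ≤
        δ / 3 * 𝔖 T * (3 * X / Real.log X ^ (k + 1)) := by gcongr
      _ = δ * (𝔖 T * (X / Real.log X ^ (k + 1))) := by ring
  · intro T _ _
    exact CT_nonneg T

end Pool.Agent.Results.MP_be93de_nt.EveryVectorOfClasses
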