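import Mathlib
import Pool.Agent.L7h32.CT.RamI

/-!
# Infinite sets `B` with: for every `n`, for almost all pairs of elements, `p_{kn} + (b - b')` is an almost prime `P_2` for infinitely many `k`

The question asks for primes `p_{kn}`, with index a multiple of `n`, for which `p_{kn} + 2` is prime. Here the shift
`2` is replaced by the differences of an infinite set, and ONE infinite set serves all `n` and all numbers of shifts
at the same time: for every infinite set `A` of integers and every function `ψ` (growing as fast as one likes) there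
are distinct elements `b_0, b_1, b_2, ...` of `A` with the following property. Let `I` be a finite set of indices and
`m ≥ 1` such that `|I| ≤ ψ(i)` and `m ≤ ψ(i)` for the elements `i` of `I`. Then for EVERY `i_0` in `I` and EVERY
residue class `r` modulo `m` and `η > 0` there are arbitrarily large `x` such that at least `x ^ (1 - η)` of the
`n ≤ x` have: `n + b_{i_0}` is a prime `p_j` with `j ≡ r` modulo `m`, and `n + b_i = p_j + (b_i - b_{i_0})` has for
all the other `i` in `I` at most two prime factors, all of them at least `x ^ (1/7)`.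

For `r = 0` the index `j` is a multiple of `m`. If for instance `ψ(i) = i + 2`, then for every `m` all pairs of the
`b_i` with `i ≥ m` have infinitely many multiples `j` of `m` with `p_j + (b - b')` an almost prime `P_2`.

The first hand-in `ChenPrimesWithIndices` is about almost all vectors of finite sets, for a fixed modulus and a fixed
number of shifts; no statement about infinite sets, or about all moduli at the same time, follows from it.

Proof. The sieve theorem of `MP_8923e7_nt` gives in every sufficiently large box, for all residue classes, a vector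
with the property for this class (`Pool.Agent.L7h32.CT.boxI`). Colour the `k`-element sets by the pairs (position of
the root, residue class modulo `m!`) for which the property holds for infinitely many scales; in a homogeneous
infinite set (infinite Ramsey theorem) all pairs occur, since the root block may stand at every place of the box. A
diagonal choice gives the sequence.
-/

set_option autoImplicit false

namespace Pool.Agent.Results.MP_be93de_nt.InfiniteSetsWithIndices

open Finset Filter

/-- The `j`-th prime: `p 1 = 2`, `p 2 = 3`, `p 3 = 5`, and so on. -/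
noncomputable def p (j : ℕ) : ℕ := Nat.nth Nat.Prime (j - 1)

/-- `m` exceeds `1` and has at most two prime factors, counted with multiplicity, all at least `y` -/
def P2 (y : ℝ) (m : ℤ) : Prop :=
  1 < m ∧ m.natAbs.primeFactorsList.length ≤ 2 ∧ ∀ q ∈ m.natAbs.primeFactors, y ≤ (q : ℝ)

/-- the number of the `1 ≤ n ≤ x` such that `n + b_{i₀}` is the prime `p_j` for some `j ≡ r` modulo `m` and all the
other `n + b_i`, `i ∈ I`, have at most two prime factors, all of them at least `x ^ (1/7)` -/
noncomputable def count (b : ℕ → ℤ) (I : Finset ℕ) (i₀ m r x : ℕ) : ℕ :=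
  {n : ℕ | (1 ≤ n ∧ n ≤ x) ∧ (∃ j : ℕ, 1 ≤ j ∧ j ≡ r [MOD m] ∧ (n : ℤ) + b i₀ = p j) ∧
    ∀ i ∈ I, i ≠ i₀ → P2 ((x : ℝ) ^ (1 / 7 : ℝ)) (n + b i)}.ncard

open Classical in
/-- **Every infinite set contains an infinite set all of whose small subsets are good for all small moduli.** -/
theorem result (A : Set ℤ) (hA : A.Infinite) (ψ : ℕ → ℕ) :
    ∃ b : ℕ → ℤ, Function.Injective b ∧ (∀ i, b i ∈ A) ∧
    ∀ (I : Finset ℕ) (m : ℕ), 1 ≤ m → (∀ i ∈ I, I.card ≤ ψ i ∧ m ≤ ψ i) →
    ∀ i₀ ∈ I, ∀ (r : ℕ) (η : ℝ), 0 < η →
    ∃ᶠ x : ℕ in atTop, (x : ℝ) ^ (1 - η) ≤ (count b I i₀ m r x : ℝ) := by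
  obtain ⟨b, hb1, hb2, hb3⟩ := Pool.Agent.L7h32.CT.mainRI A hA ψ
  refine ⟨b, hb1, hb2, fun I m hm hI i₀ hi₀ r η hη => ?_⟩
  refine (hb3 I (fun i hi => (hI i hi).1) i₀ hi₀ m hm (fun i hi => (hI i hi).2) r η hη).mono
    fun x hx => hx.trans ?_
  rw [Nat.cast_le]
  unfold count
  rw [← Set.ncard_coe_finset]
  apply Set.ncard_le_ncard
  · intro n hn
    rw [Finset.mem_coe, Finset.mem_filter, Finset.mem_Icc] at hn
    obtain ⟨hn1, hn2, hn3, hn4⟩ := hn
    refine ⟨hn1, ⟨Nat.primeCounting ((n : ℤ) + b i₀).toNat, ?_, hn3, ?_⟩, hn4⟩
    · have h1 : Nat.primeCounting 2 ≤ Nat.primeCounting ((n : ℤ) + b i₀).toNat :=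
        Nat.monotone_primeCounting hn2.two_le
      have h2 : 0 < Nat.primeCounting 2 := by
        rw [Nat.pos_iff_ne_zero, Ne, Nat.primeCounting_eq_zero_iff]
        norm_num
      omega
    · have h1 : Nat.primeCounting ((n : ℤ) + b i₀).toNat - 1 =
          Nat.count Nat.Prime ((n : ℤ) + b i₀).toNat := by
        have h2 : Nat.primeCounting ((n : ℤ) + b i₀).toNat =
            Nat.count Nat.Prime (((n : ℤ) + b i₀).toNat + 1) := rfl
        rw [h2, Nat.count_succ, if_pos hn2]
        rfl
      unfold p
      rw [h1, Nat.nth_count hn2]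
      have := hn2.two_le
      omega
  · apply (Finset.finite_toSet (Finset.Icc 1 x)).subset
    rintro n ⟨hn, -, -⟩
    rw [Finset.mem_coe, Finset.mem_Icc]
    exact hn

end Pool.Agent.Results.MP_be93de_nt.InfiniteSetsWithIndices
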