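import Pool.Agent.L7h36.IX.Avg
import Pool.Agent.H387R2.U2

/-!
# Consecutive primes with the right order of magnitude, with the index in every class modulo `m`

Let `p_i` be the `i`-th prime. The question asks for multiples `j m` of `m` for which `p_(jm) + 2` is prime. For all
`k, m ≥ 1` there are `Λ, c > 0` such that in every set `A` of at least `η log x` positive integers up to
`Λ log x` (`η > 0` as small as we like) a proportion at least `c` of the `(k + 1)`-element subsets `T`, measured by the
singular series `𝔖 T`, has the following property: for EVERY residue class `r` modulo `m` there are at least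
`δ 𝔖 T x / (log x) ^ (k + 1)` integers `n ≤ x` such that the numbers `n + t`, `t ∈ T`, are consecutive primes
`p_i, p_(i+1), …, p_(i+k)` with `i ≡ r` modulo `m`. This is the order of magnitude predicted for each class. For
`k = 1`, `r = 0`: for many `d = b - a`, `a, b ∈ A`, at least `δ 𝔖 x / (log x) ^ 2` multiples `j m` of `m` have
`p_(jm) ≤ x + O(log x)` and `p_(jm+1) = p_(jm) + d`.

Proof. One class of shifts modulo the product `W` of the primes up to a large function of `x`. By the theorem of the
starting library behind `MP_e87c7d_nt.ConsecutiveTuples` (coloured Maynard-Tao theorem for consecutive primes) few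
large sets of shifts contain no `(k + m)`-element subset `F` for which the `n + f` are consecutive primes for the right
number of `n`. Such an `F` is coloured with a popular class of the index of its first prime. By Ramsey's theorem a
positive proportion of the `(k + 2m - 1)`-element sets are monochromatic; so for a positive proportion of
the `(k + 1)`-element sets `T` and for all `i < m`, a positive proportion of the sets `F ⊇ T` of the same colour have
exactly `i` elements before `T`. For different `F` the `n` are different since the primes of `n + F` are consecutive;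
the sum over `F` gives the right order of magnitude for `T`, with the index in the class of the colour plus `i`.
-/

set_option autoImplicit false

open Finset

namespace Pool.Agent.Results.MP_be93de_nt.RightOrderEveryClass

/-- the numbers `n + t`, `t ∈ T`, are consecutive primes: they are prime, and every prime `n + j`
between two of them is one of them -/
def Consecutive (n : ℕ) (T : Finset ℕ) : Prop :=
  (∀ t ∈ T, (n + t).Prime) ∧
    ∀ j : ℕ, (∃ a ∈ T, a ≤ j) → (∃ b ∈ T, j ≤ b) → (n + j).Prime → j ∈ T

/-- the smallest of the numbers `n + t`, `t ∈ T`, has an index `≡ r` modulo `m` (the index of a prime `l` is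
the number of the primes `≤ l`) -/
def FirstIndex (m r n : ℕ) (T : Finset ℕ) : Prop :=
  ∃ t ∈ T, (∀ u ∈ T, t ≤ u) ∧ Nat.primeCounting (n + t) ≡ r [MOD m]

open Classical in
/-- the number of `n ≤ x` for which the `n + t`, `t ∈ T`, are consecutive primes, the first of them with an
index `≡ r` modulo `m` -/
noncomputable def count (m r x : ℕ) (T : Finset ℕ) : ℕ :=
  ((Icc 1 x).filter (fun n => Consecutive n T ∧ FirstIndex m r n T)).card

/-- the number of residue classes modulo `p` occupied by `T` -/
def nu (T : Finset ℕ) (p : ℕ) : ℕ := (T.image (· % p)).card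

/-- the factor at `p` of the singular series -/
noncomputable def loc (T : Finset ℕ) (p : ℕ) : ℝ :=
  (1 - (nu T p : ℝ) / p) / (1 - 1 / (p : ℝ)) ^ T.card

/-- the singular series of `T` -/
noncomputable def 𝔖 (T : Finset ℕ) : ℝ := ∏' p : Nat.Primes, loc T p

open Pool.Agent.H387R2.Uni Pool.Agent.L7h36.IX

theorem CT_eq (T : Finset ℕ) : CT T = 𝔖 T := rfl

theorem cnTI_le {m r X x : ℕ} (hx : 2 * X ≤ x) (_ : 1 ≤ X) (T : Finset ℕ) : cnTI m r X T ≤ count m r x T := by
  classical
  unfold cnTI count
  apply card_le_card
  intro n hn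
  rw [mem_filter, mem_Ico] at hn
  rw [mem_filter, mem_Icc]
  exact ⟨⟨by omega, by omega⟩, hn.2⟩

open Classical in
/-- **Patterns of consecutive primes in dense sets of shifts, with the index in every class modulo `m`.** For all
`k, m ≥ 1` there are `Λ, c > 0` such that for every `η > 0` there are `δ > 0` and `x₀` such that for all `x ≥ x₀`
and every set `A` of positive integers `≤ Λ log x` with at least `η log x` elements: the `(k + 1)`-element subsets `T`
of `A` such that for EVERY `r` there are at least `δ 𝔖 T x / (log x) ^ (k + 1)` integers `n ≤ x` for which the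
`n + t`, `t ∈ T`, are consecutive primes, the first with index `≡ r` modulo `m`, carry at least the proportion `c`
of the sum of `𝔖 T` over all `(k + 1)`-element subsets `T` of `A`. -/
theorem result (k m : ℕ) (hk : 1 ≤ k) (hm : 1 ≤ m) : ∃ Λ c : ℝ, 0 < Λ ∧ 0 < c ∧ ∀ η : ℝ, 0 < η →
    ∃ δ : ℝ, 0 < δ ∧ ∃ x₀ : ℕ, ∀ x : ℕ, x₀ ≤ x → ∀ A : Finset ℕ,
      (∀ a ∈ A, 1 ≤ a ∧ (a : ℝ) ≤ Λ * Real.log x) → η * Real.log x ≤ A.card →
      c * ∑ T ∈ A.powersetCard (k + 1), 𝔖 T ≤
        ∑ T ∈ (A.powersetCard (k + 1)).filter (fun T => ∀ r : ℕ,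
          δ * 𝔖 T * (x / Real.log x ^ (k + 1)) ≤ count m r x T), 𝔖 T := by
  obtain ⟨Λ, κ, hΛ, -, hκ, hF⟩ := final k m hk hm
  refine ⟨Λ / 2, κ, by positivity, hκ, fun η hη => ?_⟩
  obtain ⟨δ, hδ, X₀, hX₀⟩ := hF η hη
  refine ⟨δ / 3, by positivity, 2 * X₀ + 20, fun x hx A hA hcard => ?_⟩
  obtain ⟨X, hX⟩ : ∃ X : ℕ, X = x / 2 := ⟨_, rfl⟩
  have hX1 : 2 * X ≤ x := by omega
  have hX6 : 6 ≤ X := by omega
  have hXX₀ : X₀ ≤ X := by omega
  have hXr : (6 : ℝ) ≤ X := by exact_mod_cast hX6
  have hxr : (X : ℝ) ≤ x := by exact_mod_cast (by omega : X ≤ x)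
  have hx3 : (x : ℝ) ≤ 3 * X := by exact_mod_cast (by omega : x ≤ 3 * X)
  have hL : 0 < Real.log X := Real.log_pos (by linarith)
  have hLx : Real.log X ≤ Real.log x := Real.log_le_log (by linarith) hxr
  have hL2 : Real.log x ≤ 2 * Real.log X := by
    have h1 : (x : ℝ) ≤ (X : ℝ) ^ 2 := by nlinarith
    calc Real.log x ≤ Real.log ((X : ℝ) ^ 2) := Real.log_le_log (by linarith) h1
      _ = 2 * Real.log X := by rw [Real.log_pow]; norm_num
  have hA' : ∀ a ∈ A, 1 ≤ a ∧ (a : ℝ) ≤ Λ * Real.log X := by
    intro a ha
    obtain ⟨h1, h2⟩ := hA a ha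
    refine ⟨h1, h2.trans ?_⟩
    calc Λ / 2 * Real.log x ≤ Λ / 2 * (2 * Real.log X) := by gcongr
      _ = Λ * Real.log X := by ring
  have hcard' : η * Real.log X ≤ A.card := le_trans (by gcongr) hcard
  have key := hX₀ X hXX₀ A hA' hcard'
  refine key.trans ?_
  refine sum_le_sum_of_subset_of_nonneg (f := CT) ?_ ?_
  · intro T hT
    rw [mem_filter] at hT ⊢
    refine ⟨hT.1, fun r => ?_⟩
    have h2' : (cnTI m r X T : ℝ) ≤ count m r x T := by exact_mod_cast cnTI_le hX1 (by omega) T
    refine le_trans ?_ ((hT.2 r).trans h2')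
    rw [CT_eq]
    have h3 : 0 ≤ 𝔖 T := CT_nonneg T
    have h4 : (x : ℝ) / Real.log x ^ (k + 1) ≤ 3 * X / Real.log X ^ (k + 1) := by
      apply div_le_div₀ (by positivity) hx3 (by positivity)
      exact pow_le_pow_left₀ hL.le hLx _
    calc δ / 3 * 𝔖 T * (x / Real.log x ^ (k + 1)) ≤
        δ / 3 * 𝔖 T * (3 * X / Real.log X ^ (k + 1)) := by gcongr
      _ = δ * (𝔖 T * (X / Real.log X ^ (k + 1))) := by ring
  · intro T _ _
    exact CT_nonneg T

end Pool.Agent.Results.MP_be93de_nt.RightOrderEveryClass
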